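import Pool.Agent.H583Z.Knead.Main

set_option autoImplicit false

namespace Pool.Agent.Results.MP_ace4dd_an.AC1Counterexample

open Set Pool.Agent.H583Z.Knead

/-- For every `ε > 0` (and every `k`) there is a real-analytic one-parameter family of unimodal
maps at `C¹` distance `< ε` from the quadratic family (each map being moreover `ε`-close to the
quadratic map together with its `x`-derivatives up to order `k`) whose kneading sequence is
neither non-decreasing nor non-increasing in the parameter. -/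
theorem result (k : ℕ) (ε : ℝ) (hε : 0 < ε) :
    ∃ (G : ℝ → ℝ → ℝ) (c : ℝ → ℝ) (ν : ℝ → ℕ → ℤ),
      ContDiff ℝ ⊤ (Function.uncurry G) ∧
      (∀ μ ∈ Ioc (0 : ℝ) 2, IsUnimodal (fun x => G x μ) (c μ) ∧
        IsKneading (fun x => G x μ) (c μ) (ν μ)) ∧
      c1dist G < ENNReal.ofReal ε ∧
      (∀ j ≤ k, ∀ μ ∈ Ioc (0 : ℝ) 2, ∀ x ∈ Icc (-1 : ℝ) 1,
        |iteratedDeriv j (fun t => G t μ - quad t μ) x| < ε) ∧
      ¬ (∀ μ ∈ Ioc (0 : ℝ) 2, ∀ μ' ∈ Ioc (0 : ℝ) 2, μ ≤ μ' → LexLe (ν μ) (ν μ')) ∧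
      ¬ (∀ μ ∈ Ioc (0 : ℝ) 2, ∀ μ' ∈ Ioc (0 : ℝ) 2, μ ≤ μ' → LexLe (ν μ') (ν μ)) :=
  main k ε hε

end Pool.Agent.Results.MP_ace4dd_an.AC1Counterexample
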